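import Pool.Agent.H25.DP.Basic
import Pool.Agent.H39.MZ.MV
import Pool.Agent.H74.DP.CO4

/-! Mean squares of Dirichlet polynomials with Gaussian weights (for module MSU). -/

set_option autoImplicit false

open Complex MeasureTheory Set Filter Topology

namespace Pool.Agent.H33.RT

open Pool.Agent.H25.DL Pool.Agent.H25.DP

/-- square root of `om` -/
noncomputable def so (x : ℝ) : ℝ := 8 * (x * (1 - x)) ^ (3 / 2 : ℝ)

/-- derivative of `so` -/
noncomputable def so' (x : ℝ) : ℝ := 8 * (3 / 2 * (x * (1 - x)) ^ (1 / 2 : ℝ) * (1 - 2 * x))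

lemma hasDerivAt_so (x : ℝ) : HasDerivAt so (so' x) x := by
  have h1 : HasDerivAt (fun x : ℝ => x * (1 - x)) (1 - 2 * x) x := by
    have := (hasDerivAt_id x).mul ((hasDerivAt_id x).const_sub 1)
    refine this.congr_deriv ?_
    simp
    ring
  have h2 := (Real.hasDerivAt_rpow_const (x := x * (1 - x)) (p := 3 / 2)
    (Or.inr (by norm_num))).comp x h1
  refine (h2.const_mul 8).congr_deriv ?_
  unfold so'
  norm_num

lemma so_sq {x : ℝ} (h0 : 0 ≤ x) (h1 : x ≤ 1) : so x ^ 2 = om x := by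
  unfold so om
  have h : 0 ≤ x * (1 - x) := mul_nonneg h0 (by linarith)
  rw [mul_pow, ← Real.rpow_natCast, ← Real.rpow_natCast, ← Real.rpow_mul h]
  norm_num

lemma abs_so_le {x : ℝ} (h0 : 0 ≤ x) (h1 : x ≤ 1) : |so x| ≤ 1 := by
  have h2 := so_sq h0 h1
  have h3 := om_le_one h0 h1
  rw [← h2] at h3
  exact (sq_le_one_iff_abs_le_one _).1 h3

lemma abs_so'_le {x : ℝ} (h0 : 0 ≤ x) (h1 : x ≤ 1) : |so' x| ≤ 6 := by
  unfold so'
  have h : 0 ≤ x * (1 - x) := mul_nonneg h0 (by linarith)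
  have h2 : x * (1 - x) ≤ 1 / 4 := by nlinarith [sq_nonneg (x - 1 / 2)]
  have h3 : (x * (1 - x)) ^ (1 / 2 : ℝ) ≤ 1 / 2 := by
    calc (x * (1 - x)) ^ (1 / 2 : ℝ) ≤ (1 / 4 : ℝ) ^ (1 / 2 : ℝ) :=
          Real.rpow_le_rpow h h2 (by norm_num)
      _ = 1 / 2 := by
          rw [show (1 / 4 : ℝ) = (1 / 2) ^ (2 : ℝ) by norm_num, ← Real.rpow_mul (by norm_num)]
          norm_num
  have h4 : |1 - 2 * x| ≤ 1 := by rw [abs_le]; constructor <;> linarith
  have h5 : 0 ≤ (x * (1 - x)) ^ (1 / 2 : ℝ) := Real.rpow_nonneg h _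
  rw [abs_mul, abs_mul, abs_mul, abs_of_nonneg h5, abs_of_nonneg (by norm_num : (0 : ℝ) ≤ 8),
    abs_of_nonneg (by norm_num : (0 : ℝ) ≤ 3 / 2)]
  calc 8 * (3 / 2 * (x * (1 - x)) ^ (1 / 2 : ℝ) * |1 - 2 * x|) ≤ 8 * (3 / 2 * (1 / 2) * 1) := by
        gcongr
    _ = 6 := by norm_num

lemma continuous_so' : Continuous so' := by
  unfold so'
  refine continuous_const.mul ((continuous_const.mul ?_).mul (by fun_prop))
  exact Continuous.rpow_const (by fun_prop) (fun x => Or.inr (by norm_num))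

lemma continuous_so : Continuous so := by
  unfold so
  refine continuous_const.mul ?_
  exact Continuous.rpow_const (by fun_prop) (fun x => Or.inr (by norm_num))

/-- the centre of the Gaussian -/
noncomputable def cu (d B η u : ℝ) : ℝ := d * Real.log u + d + B + η / u

/-- derivative of `cu` -/
noncomputable def cu' (d η u : ℝ) : ℝ := d / u - η / u ^ 2

lemma hasDerivAt_cu (d B η : ℝ) {u : ℝ} (hu : 0 < u) : HasDerivAt (cu d B η) (cu' d η u) u := by
  have h1 := (Real.hasDerivAt_log hu.ne').const_mul d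
  have h2 := (hasDerivAt_inv hu.ne').const_mul η
  have h3 := ((h1.add_const d).add_const B).add h2
  refine (h3.congr_deriv ?_)
  unfold cu'
  field_simp
  ring

lemma continuousOn_cu' (d η : ℝ) : ContinuousOn (cu' d η) (Ioi 0) := by
  unfold cu'
  apply ContinuousOn.sub
  · exact continuousOn_const.div continuousOn_id fun _ hx => ne_of_gt hx
  · exact continuousOn_const.div (continuousOn_id.pow 2) fun x hx => by
      have : (0 : ℝ) < x := hx
      exact (pow_pos this 2).ne'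

lemma continuousOn_cu (d B η : ℝ) : ContinuousOn (cu d B η) (Ioi 0) := fun x hx =>
  (hasDerivAt_cu d B η hx).continuousAt.continuousWithinAt

lemma abs_cu'_le {d η T u : ℝ} (hd : 0 < d) (hT : 1 ≤ T) (hu : T ≤ u) :
    |cu' d η u| ≤ (d + |η|) / T := by
  unfold cu'
  have hu0 : 0 < u := by linarith
  have h1 : |d / u - η / u ^ 2| ≤ d / u + |η| / u ^ 2 := by
    calc |d / u - η / u ^ 2| ≤ |d / u| + |η / u ^ 2| := abs_sub _ _
      _ = d / u + |η| / u ^ 2 := by
          rw [abs_of_pos (by positivity), abs_div, abs_of_pos (by positivity : 0 < u ^ 2)]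
  refine h1.trans ?_
  rw [add_div]
  refine add_le_add ?_ ?_
  · exact div_le_div_of_nonneg_left hd.le (by linarith) hu
  · refine div_le_div_of_nonneg_left (abs_nonneg _) (by linarith) ?_
    nlinarith

/-- the Gaussian factor -/
noncomputable def Ga (β : ℝ) (c : ℝ → ℝ) (l u : ℝ) : ℝ := Real.exp (-(β ^ 2 * (c u - l) ^ 2 / 4))

lemma hasDerivAt_Ga (β l : ℝ) {c : ℝ → ℝ} {c' u : ℝ} (h : HasDerivAt c c' u) :
    HasDerivAt (Ga β c l) (Ga β c l u * (-(β ^ 2 * (c u - l) * c' / 2))) u := by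
  have h1 := (((h.sub_const l).pow 2).const_mul (β ^ 2)).div_const 4
  have h2 := h1.neg.exp
  refine h2.congr_deriv ?_
  unfold Ga
  simp only [Nat.cast_ofNat, Nat.add_one_sub_one, pow_one, Pi.pow_apply, Pi.neg_apply]
  ring

lemma Ga_nonneg (β l u : ℝ) (c : ℝ → ℝ) : 0 ≤ Ga β c l u := (Real.exp_pos _).le

lemma Ga_le_one (β l u : ℝ) (c : ℝ → ℝ) : Ga β c l u ≤ 1 := by
  unfold Ga
  rw [Real.exp_le_one_iff]
  have : 0 ≤ β ^ 2 * (c u - l) ^ 2 / 4 := by positivity
  linarith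

lemma Ga_der_le {β : ℝ} (hβ : 0 < β) (l u c' : ℝ) (c : ℝ → ℝ) :
    |Ga β c l u * (-(β ^ 2 * (c u - l) * c' / 2))| ≤ β * |c'| := by
  obtain ⟨x, hx⟩ : ∃ x, x = β * (c u - l) / 2 := ⟨_, rfl⟩
  have h1 : Ga β c l u = Real.exp (-x ^ 2) := by
    unfold Ga
    rw [hx]
    congr 1
    ring
  have h2 : -(β ^ 2 * (c u - l) * c' / 2) = -(β * x * c') := by
    rw [hx]; ring
  rw [h1, h2, abs_mul, abs_neg, abs_mul, abs_mul, abs_of_pos hβ, abs_of_pos (Real.exp_pos _)]
  have h3 : |x| * Real.exp (-x ^ 2) ≤ 1 := by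
    rw [Real.exp_neg, ← div_eq_mul_inv, div_le_one (Real.exp_pos _)]
    have h4 := Real.add_one_le_exp (x ^ 2)
    have h5 : |x| ≤ x ^ 2 + 1 := by
      rw [← sq_abs]
      nlinarith [sq_nonneg (|x| - 1), abs_nonneg x]
    linarith
  calc Real.exp (-x ^ 2) * (β * |x| * |c'|) = (|x| * Real.exp (-x ^ 2)) * (β * |c'|) := by ring
    _ ≤ 1 * (β * |c'|) := by gcongr
    _ = _ := one_mul _

/-- the diagonal integral -/
noncomputable def Jd (β d B η T l : ℝ) : ℝ :=
  ∫ u in (5 * T / 4)..(7 * T / 4), om ((u - 5 * T / 4) / (T / 2)) *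
    Real.exp (-(β ^ 2 * (cu d B η u - l) ^ 2 / 2))

lemma unit_mem {T u : ℝ} (hT : 0 < T) (hu : u ∈ Icc (5 * T / 4) (7 * T / 4)) :
    0 ≤ (u - 5 * T / 4) / (T / 2) ∧ (u - 5 * T / 4) / (T / 2) ≤ 1 := by
  constructor
  · exact div_nonneg (by linarith [hu.1]) (by linarith)
  · rw [div_le_one (by linarith)]
    linarith [hu.2]

/-- mean square for fixed `ξ` -/
lemma per_xi (β d B η : ℝ) (hβ : 0 < β) (hd : 0 < d) : ∃ C : ℝ, 0 < C ∧
    ∀ (T ξ : ℝ) (N : ℕ) (a : ℕ → ℂ), 1 ≤ T → 1 ≤ N →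
    ∫ u in (5 * T / 4)..(7 * T / 4), om ((u - 5 * T / 4) / (T / 2)) *
      ‖∑ k ∈ Finset.Icc 1 N, a k * cexp ((-(u * Real.log k) : ℝ) * I) *
        (Real.exp (-(β ^ 2 * (cu d B η u - Real.log k - ξ) ^ 2 / 4)) : ℂ)‖ ^ 2 ≤
      (∑ k ∈ Finset.Icc 1 N, ‖a k‖ ^ 2 * Jd β d B η T (Real.log k + ξ)) +
      C * N * Real.log (N + 1) * ∑ k ∈ Finset.Icc 1 N, ‖a k‖ ^ 2 := by
  obtain ⟨C, hC, hmv⟩ := Pool.Agent.H39.MZ.mv
  refine ⟨C * (1 + (6 + β * (d + |η|))), by positivity, ?_⟩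
  intro T ξ N a hT hN
  have hT0 : 0 < T := by linarith
  have hle : 5 * T / 4 ≤ 7 * T / 4 := by linarith
  obtain ⟨g, hg⟩ : ∃ g : ℕ → ℝ → ℂ, g = fun (k : ℕ) (u : ℝ) =>
    ((so ((u - 5 * T / 4) / (T / 2)) * Ga β (cu d B η) (Real.log k + ξ) u : ℝ) : ℂ) := ⟨_, rfl⟩
  obtain ⟨g', hg'⟩ : ∃ g' : ℕ → ℝ → ℂ, g' = fun (k : ℕ) (u : ℝ) =>
    ((so' ((u - 5 * T / 4) / (T / 2)) * (1 / (T / 2)) * Ga β (cu d B η) (Real.log k + ξ) u +
      so ((u - 5 * T / 4) / (T / 2)) * (Ga β (cu d B η) (Real.log k + ξ) u *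
        (-(β ^ 2 * (cu d B η u - (Real.log k + ξ)) * cu' d η u / 2))) : ℝ) : ℂ) := ⟨_, rfl⟩
  have hpos : ∀ u ∈ Icc (5 * T / 4) (7 * T / 4), 0 < u := fun u hu => by linarith [hu.1]
  have hder : ∀ k, ∀ u ∈ Icc (5 * T / 4) (7 * T / 4), HasDerivAt (g k) (g' k u) u := by
    intro k u hu
    rw [hg, hg']
    have h1 : HasDerivAt (fun u : ℝ => (u - 5 * T / 4) / (T / 2)) (1 / (T / 2)) u :=
      ((hasDerivAt_id u).sub_const _).div_const _
    have h2 := (hasDerivAt_so ((u - 5 * T / 4) / (T / 2))).comp u h1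
    have h3 := hasDerivAt_Ga β (Real.log k + ξ) (hasDerivAt_cu d B η (hpos u hu))
    exact (h2.mul h3).ofReal_comp
  have hsub : Icc (5 * T / 4) (7 * T / 4) ⊆ Ioi (0 : ℝ) := hpos
  have hcont : ∀ k, ContinuousOn (g' k) (Icc (5 * T / 4) (7 * T / 4)) := by
    intro k
    rw [hg']
    refine Complex.continuous_ofReal.comp_continuousOn ?_
    have hGc : ContinuousOn (Ga β (cu d B η) (Real.log k + ξ)) (Icc (5 * T / 4) (7 * T / 4)) :=
      fun u hu => (hasDerivAt_Ga β (Real.log k + ξ)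
        (hasDerivAt_cu d B η (hpos u hu))).continuousAt.continuousWithinAt
    have hcc := (continuousOn_cu d B η).mono hsub
    have hcc' := (continuousOn_cu' d η).mono hsub
    have h4 : ContinuousOn (fun u : ℝ => so' ((u - 5 * T / 4) / (T / 2)))
        (Icc (5 * T / 4) (7 * T / 4)) := (continuous_so'.comp (by fun_prop)).continuousOn
    have h5 : ContinuousOn (fun u : ℝ => so ((u - 5 * T / 4) / (T / 2)))
        (Icc (5 * T / 4) (7 * T / 4)) := (continuous_so.comp (by fun_prop)).continuousOn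
    refine ((h4.mul continuousOn_const).mul hGc).add (h5.mul (hGc.mul ?_))
    exact (((continuousOn_const.mul (hcc.sub continuousOn_const)).mul hcc').div_const 2).neg
  have hb : ∀ k, ∀ u ∈ Icc (5 * T / 4) (7 * T / 4), ‖g k u‖ ≤ 1 := by
    intro k u hu
    obtain ⟨h1, h2⟩ := unit_mem hT0 hu
    rw [hg]
    simp only
    rw [Complex.norm_real, Real.norm_eq_abs, abs_mul, abs_of_nonneg (Ga_nonneg _ _ _ _)]
    exact mul_le_one₀ (abs_so_le h1 h2) (Ga_nonneg _ _ _ _) (Ga_le_one _ _ _ _)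
  have hb' : ∀ k, ∀ u ∈ Icc (5 * T / 4) (7 * T / 4),
      ‖g' k u‖ * (7 * T / 4 - 5 * T / 4) ≤ 6 + β * (d + |η|) := by
    intro k u hu
    obtain ⟨h1, h2⟩ := unit_mem hT0 hu
    have h3 : ‖g' k u‖ ≤ 6 * (1 / (T / 2)) + β * ((d + |η|) / T) := by
      rw [hg']
      simp only
      rw [Complex.norm_real, Real.norm_eq_abs]
      refine (abs_add_le _ _).trans (add_le_add ?_ ?_)
      · rw [abs_mul, abs_mul, abs_of_nonneg (Ga_nonneg _ _ _ _),
          abs_of_nonneg (by positivity : 0 ≤ 1 / (T / 2))]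
        calc |so' ((u - 5 * T / 4) / (T / 2))| * (1 / (T / 2)) *
              Ga β (cu d B η) (Real.log k + ξ) u ≤ 6 * (1 / (T / 2)) * 1 := by
              refine mul_le_mul (mul_le_mul_of_nonneg_right (abs_so'_le h1 h2) (by positivity))
                (Ga_le_one _ _ _ _) (Ga_nonneg _ _ _ _) (by positivity)
          _ = _ := mul_one _
      · rw [abs_mul]
        have h4 := Ga_der_le hβ (Real.log k + ξ) u (cu' d η u) (cu d B η)
        have h5 : |cu' d η u| ≤ (d + |η|) / T := abs_cu'_le hd hT (by linarith [hu.1])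
        calc _ ≤ 1 * (β * |cu' d η u|) :=
              mul_le_mul (abs_so_le h1 h2) h4 (abs_nonneg _) zero_le_one
          _ ≤ β * ((d + |η|) / T) := by
              rw [one_mul]
              exact mul_le_mul_of_nonneg_left h5 hβ.le
    calc ‖g' k u‖ * (7 * T / 4 - 5 * T / 4) ≤
          (6 * (1 / (T / 2)) + β * ((d + |η|) / T)) * (7 * T / 4 - 5 * T / 4) :=
          mul_le_mul_of_nonneg_right h3 (by linarith)
      _ = 6 + β * (d + |η|) / 2 := by
          field_simp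
          ring
      _ ≤ 6 + β * (d + |η|) := by
          have : 0 ≤ β * (d + |η|) := by positivity
          linarith
  have hmain := hmv N a g g' (5 * T / 4) (7 * T / 4) (6 + β * (d + |η|)) hN hle (by positivity)
    hder hcont hb hb'
  have hL : ∫ u in (5 * T / 4)..(7 * T / 4), om ((u - 5 * T / 4) / (T / 2)) *
      ‖∑ k ∈ Finset.Icc 1 N, a k * cexp ((-(u * Real.log k) : ℝ) * I) *
        (Real.exp (-(β ^ 2 * (cu d B η u - Real.log k - ξ) ^ 2 / 4)) : ℂ)‖ ^ 2 =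
      ∫ u in (5 * T / 4)..(7 * T / 4), ‖∑ k ∈ Finset.Icc 1 N, a k * g k u *
        cexp (((-(u * Real.log k) : ℝ) : ℂ) * I)‖ ^ 2 := by
    refine intervalIntegral.integral_congr fun u hu => ?_
    rw [uIcc_of_le hle] at hu
    obtain ⟨h1, h2⟩ := unit_mem hT0 hu
    have h3 : ∑ k ∈ Finset.Icc 1 N, a k * g k u * cexp (((-(u * Real.log k) : ℝ) : ℂ) * I) =
        (so ((u - 5 * T / 4) / (T / 2)) : ℂ) *
        ∑ k ∈ Finset.Icc 1 N, a k * cexp ((-(u * Real.log k) : ℝ) * I) *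
        (Real.exp (-(β ^ 2 * (cu d B η u - Real.log k - ξ) ^ 2 / 4)) : ℂ) := by
      rw [Finset.mul_sum]
      refine Finset.sum_congr rfl fun k _ => ?_
      rw [hg]
      simp only
      unfold Ga
      rw [show cu d B η u - (Real.log k + ξ) = cu d B η u - Real.log k - ξ by ring]
      push_cast
      ring
    rw [h3, norm_mul, mul_pow, Complex.norm_real, Real.norm_eq_abs, sq_abs, so_sq h1 h2]
  rw [hL]
  refine hmain.trans (le_of_eq ?_)
  congr 1
  · refine Finset.sum_congr rfl fun k _ => ?_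
    congr 1
    unfold Jd
    refine intervalIntegral.integral_congr fun u hu => ?_
    rw [uIcc_of_le hle] at hu
    obtain ⟨h1, h2⟩ := unit_mem hT0 hu
    rw [hg]
    simp only
    rw [Complex.norm_real, Real.norm_eq_abs, sq_abs, mul_pow, so_sq h1 h2]
    congr 1
    unfold Ga
    rw [← Real.exp_nat_mul]
    congr 1
    push_cast
    ring

lemma Jd_integrand_cont (β d B η T l : ℝ) (hT : 1 ≤ T) :
    ContinuousOn (fun u => om ((u - 5 * T / 4) / (T / 2)) *
      Real.exp (-(β ^ 2 * (cu d B η u - l) ^ 2 / 2))) (Icc (5 * T / 4) (7 * T / 4)) := by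
  have hcc := (continuousOn_cu d B η).mono (show Icc (5 * T / 4) (7 * T / 4) ⊆ Ioi (0 : ℝ) from
    fun u hu => by
      have := hu.1
      show 0 < u
      linarith)
  refine ContinuousOn.mul (continuous_om.comp (by fun_prop)).continuousOn ?_
  refine Real.continuous_exp.comp_continuousOn ?_
  exact ((continuousOn_const.mul ((hcc.sub continuousOn_const).pow 2)).div_const 2).neg

lemma Jd_nonneg (β d B η T l : ℝ) (hT : 1 ≤ T) : 0 ≤ Jd β d B η T l := by
  unfold Jd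
  refine intervalIntegral.integral_nonneg (by linarith) fun u hu => ?_
  obtain ⟨h1, h2⟩ := unit_mem (by linarith) hu
  exact mul_nonneg (om_nonneg h1 h2) (Real.exp_pos _).le

/-- pointwise bound for the diagonal integral -/
lemma Jd_le (β d B η T l E : ℝ) (hT : 1 ≤ T)
    (hE : ∀ u ∈ Icc (5 * T / 4) (7 * T / 4), Real.exp (-(β ^ 2 * (cu d B η u - l) ^ 2 / 2)) ≤ E) :
    Jd β d B η T l ≤ T / 2 * E := by
  have hle : 5 * T / 4 ≤ 7 * T / 4 := by linarith
  unfold Jd
  have h1 : ∫ u in (5 * T / 4)..(7 * T / 4), om ((u - 5 * T / 4) / (T / 2)) *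
      Real.exp (-(β ^ 2 * (cu d B η u - l) ^ 2 / 2)) ≤ ∫ u in (5 * T / 4)..(7 * T / 4), E := by
    refine intervalIntegral.integral_mono_on hle ?_ (by simp) fun u hu => ?_
    · apply ContinuousOn.intervalIntegrable
      rw [uIcc_of_le hle]
      exact Jd_integrand_cont β d B η T l hT
    · obtain ⟨h2, h3⟩ := unit_mem (by linarith) hu
      calc _ ≤ 1 * Real.exp (-(β ^ 2 * (cu d B η u - l) ^ 2 / 2)) :=
            mul_le_mul_of_nonneg_right (om_le_one h2 h3) (Real.exp_pos _).le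
        _ ≤ E := by rw [one_mul]; exact hE u hu
  refine h1.trans (le_of_eq ?_)
  rw [intervalIntegral.integral_const, smul_eq_mul]
  ring

/-- the integrand of the double integral -/
noncomputable def dbl (β d B η T l : ℝ) (ξ u : ℝ) : ℝ :=
  om ((u - 5 * T / 4) / (T / 2)) * Real.exp (-(β ^ 2 * (cu d B η u - (l + ξ)) ^ 2 / 2))

lemma dbl_cont (β d B η T l ξ₁ ξ₂ : ℝ) (hT : 1 ≤ T) :
    ContinuousOn (fun q : ℝ × ℝ => dbl β d B η T l q.1 q.2)
      (Icc ξ₁ ξ₂ ×ˢ Icc (5 * T / 4) (7 * T / 4)) := by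
  unfold dbl
  have hcc : ContinuousOn (fun q : ℝ × ℝ => cu d B η q.2)
      (Icc ξ₁ ξ₂ ×ˢ Icc (5 * T / 4) (7 * T / 4)) := by
    refine (continuousOn_cu d B η).comp continuous_snd.continuousOn ?_
    intro q hq
    have := hq.2.1
    show 0 < q.2
    linarith
  refine ContinuousOn.mul (continuous_om.comp (by fun_prop)).continuousOn ?_
  refine Real.continuous_exp.comp_continuousOn ?_
  refine ((continuousOn_const.mul ((hcc.sub ?_).pow 2)).div_const 2).neg
  fun_prop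

lemma Jd_eq (β d B η T l ξ : ℝ) : Jd β d B η T (l + ξ) =
    ∫ u in (5 * T / 4)..(7 * T / 4), dbl β d B η T l ξ u := rfl

lemma Jd_contOn (β d B η T l : ℝ) (hT : 1 ≤ T) : Continuous fun ξ => Jd β d B η T (l + ξ) := by
  have hle : 5 * T / 4 ≤ 7 * T / 4 := by linarith
  unfold Jd
  refine intervalIntegral.continuous_of_dominated_interval (bound := fun _ => 1) ?_ ?_ (by simp) ?_
  · intro ξ
    rw [uIoc_of_le hle]
    exact ((Jd_integrand_cont β d B η T (l + ξ) hT).mono Ioc_subset_Icc_self).aestronglyMeasurable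
      measurableSet_Ioc
  · intro ξ
    refine Eventually.of_forall fun u hu => ?_
    rw [uIoc_of_le hle] at hu
    obtain ⟨h2, h3⟩ := unit_mem (by linarith : 0 < T) (Ioc_subset_Icc_self hu)
    rw [Real.norm_eq_abs, abs_mul, abs_of_nonneg (Real.exp_pos _).le]
    refine mul_le_one₀ (abs_om_le h2 h3) (Real.exp_pos _).le ?_
    rw [Real.exp_le_one_iff]
    have : 0 ≤ β ^ 2 * (cu d B η u - (l + ξ)) ^ 2 / 2 := by positivity
    linarith
  · refine Eventually.of_forall fun u _ => ?_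
    fun_prop

/-- Gaussian integral over an interval -/
lemma gauss_le {β : ℝ} (hβ : 0 < β) (m ξ₁ ξ₂ : ℝ) (h : ξ₁ ≤ ξ₂) :
    ∫ ξ in ξ₁..ξ₂, Real.exp (-(β ^ 2 * (m - ξ) ^ 2 / 2)) ≤ Real.sqrt (2 * Real.pi) / β := by
  have h1 : Integrable fun ξ : ℝ => Real.exp (-(β ^ 2 * (m - ξ) ^ 2 / 2)) := by
    have h2 := (integrable_exp_neg_mul_sq (b := β ^ 2 / 2) (by positivity)).comp_sub_left m
    refine h2.congr (Eventually.of_forall fun ξ => ?_)
    simp only
    congr 1
    ring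
  rw [intervalIntegral.integral_of_le h]
  refine (setIntegral_le_integral h1 (Eventually.of_forall fun ξ => (Real.exp_pos _).le)).trans
    (le_of_eq ?_)
  have h3 := integral_gaussian (β ^ 2 / 2)
  have h4 := integral_sub_left_eq_self (fun x : ℝ => Real.exp (-(β ^ 2 / 2) * x ^ 2)) volume m
  calc ∫ ξ : ℝ, Real.exp (-(β ^ 2 * (m - ξ) ^ 2 / 2)) =
        ∫ ξ : ℝ, Real.exp (-(β ^ 2 / 2) * (m - ξ) ^ 2) := by
        congr 1
        ext ξ
        congr 1
        ring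
    _ = Real.sqrt (Real.pi / (β ^ 2 / 2)) := by rw [h4, h3]
    _ = Real.sqrt (2 * Real.pi) / β := by
        rw [show Real.pi / (β ^ 2 / 2) = 2 * Real.pi / β ^ 2 by field_simp,
          Real.sqrt_div' _ (by positivity), Real.sqrt_sq hβ.le]

/-- the double integral -/
lemma dbl_int (β d B η T l ξ₁ ξ₂ : ℝ) (hβ : 0 < β) (hT : 1 ≤ T) (h : ξ₁ ≤ ξ₂) :
    ∫ ξ in ξ₁..ξ₂, Jd β d B η T (l + ξ) ≤ 8 / 35 * T * (Real.sqrt (2 * Real.pi) / β) := by
  have hle : 5 * T / 4 ≤ 7 * T / 4 := by linarith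
  have h1 : ∫ ξ in ξ₁..ξ₂, Jd β d B η T (l + ξ) =
      ∫ u in (5 * T / 4)..(7 * T / 4), ∫ ξ in ξ₁..ξ₂, dbl β d B η T l ξ u := by
    simp_rw [Jd_eq]
    apply intervalIntegral_intervalIntegral_swap
    rw [uIoc_of_le h, uIoc_of_le hle]
    have h2 := (dbl_cont β d B η T l ξ₁ ξ₂ hT).integrableOn_compact (μ := volume)
      (isCompact_Icc.prod isCompact_Icc)
    exact h2.mono_set (prod_mono Ioc_subset_Icc_self Ioc_subset_Icc_self)
  rw [h1]
  have h3 : ∀ u, ∫ ξ in ξ₁..ξ₂, dbl β d B η T l ξ u = om ((u - 5 * T / 4) / (T / 2)) *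
      ∫ ξ in ξ₁..ξ₂, Real.exp (-(β ^ 2 * (cu d B η u - l - ξ) ^ 2 / 2)) := by
    intro u
    unfold dbl
    rw [intervalIntegral.integral_const_mul]
    congr 1
    refine intervalIntegral.integral_congr fun ξ _ => ?_
    rw [show cu d B η u - (l + ξ) = cu d B η u - l - ξ by ring]
  simp_rw [h3]
  have h4 : ∫ u in (5 * T / 4)..(7 * T / 4), om ((u - 5 * T / 4) / (T / 2)) *
      ∫ ξ in ξ₁..ξ₂, Real.exp (-(β ^ 2 * (cu d B η u - l - ξ) ^ 2 / 2)) ≤
      ∫ u in (5 * T / 4)..(7 * T / 4), om ((u - 5 * T / 4) / (T / 2)) *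
        (Real.sqrt (2 * Real.pi) / β) := by
    rw [intervalIntegral.integral_of_le hle, intervalIntegral.integral_of_le hle]
    refine integral_mono_of_nonneg ?_ ?_ ?_
    · refine (ae_restrict_mem measurableSet_Ioc).mono fun u hu => ?_
      obtain ⟨h5, h6⟩ := unit_mem (by linarith : 0 < T) (Ioc_subset_Icc_self hu)
      exact mul_nonneg (om_nonneg h5 h6)
        (intervalIntegral.integral_nonneg h fun ξ _ => (Real.exp_pos _).le)
    · have h7 : Continuous fun u : ℝ => om ((u - 5 * T / 4) / (T / 2)) *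
          (Real.sqrt (2 * Real.pi) / β) :=
        (continuous_om.comp (by fun_prop)).mul continuous_const
      exact (h7.integrableOn_Icc).mono_set Ioc_subset_Icc_self
    · refine (ae_restrict_mem measurableSet_Ioc).mono fun u hu => ?_
      obtain ⟨h5, h6⟩ := unit_mem (by linarith : 0 < T) (Ioc_subset_Icc_self hu)
      exact mul_le_mul_of_nonneg_left (gauss_le hβ _ _ _ h) (om_nonneg h5 h6)
  refine h4.trans (le_of_eq ?_)
  rw [intervalIntegral.integral_mul_const]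
  have h8 := Pool.Agent.H74.DP.integral_om_window (5 * T / 4) (T / 2) (by linarith)
  rw [show 5 * T / 4 + T / 2 = 7 * T / 4 by ring] at h8
  rw [h8]
  ring

end Pool.Agent.H33.RT
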