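import Pool.Agent.H33.RT.Ms1

/-! Numerical estimates for module MSU. -/

set_option autoImplicit false

open Complex MeasureTheory Set Filter Topology

namespace Pool.Agent.H33.RT

lemma harm_le (N : ℕ) : ∑ k ∈ Finset.Icc 1 N, (1 : ℝ) / k ≤ 1 + Real.log N := by
  have h1 := harmonic_le_one_add_log N
  rw [harmonic_eq_sum_Icc] at h1
  push_cast at h1
  simpa only [one_div] using h1

/-- the errors are small -/
lemma numerics (D K C₁ C₂ X b₀ : ℝ) (hD0 : 0 < D) (hD1 : D < 1) (hK : 1 ≤ K) (hC₁ : 0 < C₁)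
    (hC₂ : 0 < C₂) (hX : 0 < X) (hb₀ : 0 < b₀) : ∀ᶠ T : ℝ in atTop, ∀ (N : ℕ) (S : ℝ), 1 ≤ N →
    (N : ℝ) ≤ K * T ^ D → 0 ≤ S → S ≤ C₂ ^ 2 * (N : ℝ) ^ ((1 - D) / 8) * (1 + Real.log N) →
    X * Real.log T * (C₁ * N * Real.log (N + 1) * S) +
      S * (X * Real.log T * (T / 2 * Real.exp (-(b₀ * Real.log T ^ 2)))) ≤
      T ^ (1 - (1 - D) / 4) := by
  obtain ⟨A₁, hA₁⟩ : ∃ A₁ : ℝ, A₁ = 2 + Real.log K := ⟨_, rfl⟩
  have hlK : 0 ≤ Real.log K := Real.log_nonneg hK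
  have hA₁0 : 0 < A₁ := by rw [hA₁]; linarith
  obtain ⟨A₂, hA₂⟩ : ∃ A₂ : ℝ, A₂ = X * C₁ * K * A₁ * (C₂ ^ 2 * K * A₁) + C₂ ^ 2 * K * A₁ * X :=
    ⟨_, rfl⟩
  have hA₂0 : 0 < A₂ := by rw [hA₂]; positivity
  filter_upwards [Pool.Agent.H74.DP.ev_log_pow_le (c := (1 - D) / 8) (by linarith) (8 * A₂) 3,
    eventually_ge_atTop (Real.exp 1), Real.tendsto_log_atTop.eventually_gt_atTop (1 / b₀),
    eventually_ge_atTop (1 : ℝ)] with T h1 h2 h3 hT1
  intro N S hN hNK hS hSN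
  have hT0 : 0 < T := by linarith
  obtain ⟨L, hL⟩ : ∃ L, L = Real.log T := ⟨_, rfl⟩
  rw [← hL] at h1 h3 ⊢
  have hL1 : 1 ≤ L := by
    rw [hL, Real.le_log_iff_exp_le hT0]
    exact h2
  obtain ⟨P, hP⟩ : ∃ P, P = 1 + L := ⟨_, rfl⟩
  have hP1 : 1 ≤ P := by linarith
  have hPL : P ≤ 2 * L := by linarith
  have hN0 : (1 : ℝ) ≤ N := by exact_mod_cast hN
  have hTD : 0 < T ^ D := Real.rpow_pos_of_pos hT0 D
  have hlN : Real.log N ≤ Real.log K + L := by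
    calc Real.log N ≤ Real.log (K * T ^ D) := Real.log_le_log (by linarith) hNK
      _ = Real.log K + D * L := by
          rw [Real.log_mul (by linarith) hTD.ne', Real.log_rpow hT0, hL]
      _ ≤ Real.log K + L := by nlinarith
  have hlN1 : Real.log (N + 1) ≤ A₁ * P := by
    have h5 : Real.log (N + 1) ≤ Real.log 2 + Real.log N := by
      rw [← Real.log_mul (by norm_num) (by linarith)]
      exact Real.log_le_log (by linarith) (by linarith)
    have h6 : Real.log 2 ≤ 1 := by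
      have := Real.log_two_lt_d9
      linarith
    rw [hA₁, hP]
    nlinarith
  have hlN2 : 1 + Real.log N ≤ A₁ * P := by
    rw [hA₁, hP]
    nlinarith
  have hlN0 : 0 ≤ Real.log N := Real.log_nonneg hN0
  have hlN10 : 0 ≤ Real.log (N + 1) := Real.log_nonneg (by linarith)
  obtain ⟨τ, hτ⟩ : ∃ τ : ℝ, τ = T ^ ((1 - D) / 8) := ⟨_, rfl⟩
  have hτ1 : 1 ≤ τ := by rw [hτ]; exact Real.one_le_rpow hT1 (by linarith)
  have hNe : (N : ℝ) ^ ((1 - D) / 8) ≤ K * τ := by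
    calc (N : ℝ) ^ ((1 - D) / 8) ≤ (K * T ^ D) ^ ((1 - D) / 8) :=
          Real.rpow_le_rpow (by linarith) hNK (by linarith)
      _ = K ^ ((1 - D) / 8) * (T ^ D) ^ ((1 - D) / 8) := Real.mul_rpow (by linarith) hTD.le
      _ ≤ K * τ := by
          have h7 : K ^ ((1 - D) / 8) ≤ K := by
            calc K ^ ((1 - D) / 8) ≤ K ^ (1 : ℝ) :=
                  Real.rpow_le_rpow_of_exponent_le hK (by linarith)
              _ = K := Real.rpow_one K
          have h8 : (T ^ D) ^ ((1 - D) / 8) ≤ τ := by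
            rw [hτ, ← Real.rpow_mul hT0.le]
            refine Real.rpow_le_rpow_of_exponent_le hT1 ?_
            nlinarith
          gcongr
  have hSb : S ≤ C₂ ^ 2 * K * A₁ * (τ * P) := by
    calc S ≤ C₂ ^ 2 * (N : ℝ) ^ ((1 - D) / 8) * (1 + Real.log N) := hSN
      _ ≤ C₂ ^ 2 * (K * τ) * (A₁ * P) := by gcongr
      _ = _ := by ring
  have hE : T / 2 * Real.exp (-(b₀ * L ^ 2)) ≤ 1 := by
    have h9 : Real.exp (-(b₀ * L ^ 2)) ≤ Real.exp (-L) := by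
      rw [Real.exp_le_exp]
      have h10 : 1 ≤ b₀ * L := by
        rw [one_div] at h3
        have := (inv_lt_iff_one_lt_mul₀ hb₀).1 h3
        linarith
      nlinarith
    have h11 : Real.exp (-L) = T⁻¹ := by rw [Real.exp_neg, hL, Real.exp_log hT0]
    rw [h11] at h9
    calc T / 2 * Real.exp (-(b₀ * L ^ 2)) ≤ T / 2 * T⁻¹ := by gcongr
      _ = 1 / 2 := by field_simp
      _ ≤ 1 := by norm_num
  have hE0 : 0 ≤ T / 2 * Real.exp (-(b₀ * L ^ 2)) := by positivity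
  have e1 : X * L * (C₁ * N * Real.log (N + 1) * S) ≤
      X * C₁ * K * A₁ * (C₂ ^ 2 * K * A₁) * (T ^ D * τ * P ^ 3) := by
    calc X * L * (C₁ * N * Real.log (N + 1) * S) ≤
          X * P * (C₁ * (K * T ^ D) * (A₁ * P) * (C₂ ^ 2 * K * A₁ * (τ * P))) := by
          gcongr
          linarith
      _ = _ := by ring
  have e2 : S * (X * L * (T / 2 * Real.exp (-(b₀ * L ^ 2)))) ≤
      C₂ ^ 2 * K * A₁ * X * (T ^ D * τ * P ^ 3) := by
    have h12 : 1 ≤ T ^ D := Real.one_le_rpow hT1 hD0.le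
    calc S * (X * L * (T / 2 * Real.exp (-(b₀ * L ^ 2)))) ≤
          (C₂ ^ 2 * K * A₁ * (τ * P)) * (X * P * 1) := by
          gcongr
          linarith
      _ = C₂ ^ 2 * K * A₁ * X * (1 * τ * (P * P * 1)) := by ring
      _ ≤ C₂ ^ 2 * K * A₁ * X * (T ^ D * τ * (P * P * P)) := by gcongr
      _ = _ := by ring
  have h13 : A₂ * P ^ 3 ≤ τ := by
    have h14 : L ^ (3 : ℝ) = L ^ 3 := by
      rw [show (3 : ℝ) = ((3 : ℕ) : ℝ) by norm_num, Real.rpow_natCast]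
    rw [h14] at h1
    calc A₂ * P ^ 3 ≤ A₂ * (2 * L) ^ 3 := by gcongr
      _ = 8 * A₂ * L ^ 3 := by ring
      _ ≤ τ := by rw [hτ]; exact h1
  calc X * L * (C₁ * N * Real.log (N + 1) * S) +
        S * (X * L * (T / 2 * Real.exp (-(b₀ * L ^ 2))))
      ≤ X * C₁ * K * A₁ * (C₂ ^ 2 * K * A₁) * (T ^ D * τ * P ^ 3) +
        C₂ ^ 2 * K * A₁ * X * (T ^ D * τ * P ^ 3) := add_le_add e1 e2
    _ = T ^ D * τ * (A₂ * P ^ 3) := by rw [hA₂]; ring
    _ ≤ T ^ D * τ * τ := by gcongr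
    _ = T ^ (D + (1 - D) / 8 + (1 - D) / 8) := by
        rw [Real.rpow_add hT0, Real.rpow_add hT0, hτ]
    _ ≤ T ^ (1 - (1 - D) / 4) := Real.rpow_le_rpow_of_exponent_le hT1 (by linarith)

end Pool.Agent.H33.RT
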