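import Pool.Agent.H29.RT.Targets
import Pool.Agent.H33.RT.Ms2

/-! Module MSU: upper bound for the mean square of the right side. -/

set_option autoImplicit false

open Complex MeasureTheory Set Filter Topology

namespace Pool.Agent.H33.RT

open Pool.Agent.H25.DL Pool.Agent.H25.DP Pool.Agent.H29.RT

variable {ι : Type} [Fintype ι]

lemma at'_eq (f : ι → Fac) (D T : ℝ) (k : ℕ) :
    at' f D T k = ∑ z ∈ (TU f D T).filter (fun z => ∏ l, z l = k), cc f z := by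
  unfold at'
  refine Finset.sum_congr ?_ fun _ _ => rfl
  ext z
  simp only [Finset.mem_filter]

/-- grouping by the product -/
lemma BR_eq (h : T_GRP) (f : ι → Fac) (β D T d B η ξ u : ℝ) (hr : ∀ l, (f l).r = 1) (hD : 0 < D)
    (hT : 1 ≤ T) (N : ℕ) (hN : N = ⌊(2 : ℝ) ^ Fintype.card ι * T ^ D⌋₊) :
    BR f β D T d B η ξ u = ∑ k ∈ Finset.Icc 1 N,
      at' f D T k * (((k : ℝ) ^ (-(1 / 2) : ℝ) : ℝ) : ℂ) *
        cexp ((-(u * Real.log k) : ℝ) * I) *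
        (Real.exp (-(β ^ 2 * (cu d B η u - Real.log k - ξ) ^ 2 / 4)) : ℂ) := by
  obtain ⟨_, hB, hC, _⟩ := h ι f D hr hD
  have hmaps : ∀ z ∈ TU f D T, (∏ l, z l) ∈ Finset.Icc 1 N := by
    intro z hz
    obtain ⟨h1, h2⟩ := hB T hT z hz
    rw [Finset.mem_Icc]
    refine ⟨h1, ?_⟩
    rw [hN]
    exact Nat.le_floor h2
  unfold BR
  rw [← Finset.sum_fiberwise_of_maps_to hmaps]
  refine Finset.sum_congr rfl fun k hk => ?_
  rw [at'_eq, Finset.sum_mul, Finset.sum_mul, Finset.sum_mul]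
  refine Finset.sum_congr rfl fun z hz => ?_
  rw [Finset.mem_filter] at hz
  obtain ⟨h1, _⟩ := hB T hT z hz.1
  have hz1 : ∀ l, 1 ≤ z l := by
    intro l
    have h3 : ∏ l, z l ≠ 0 := by omega
    have h4 := Finset.prod_ne_zero_iff.1 h3 l (Finset.mem_univ l)
    omega
  obtain ⟨h5, h6⟩ := hC z hz1
  rw [hz.2] at h5 h6
  rw [h5, h6]
  rfl

/-- norms of the coefficients -/
lemma norm_a_sq (x : ℂ) (k : ℕ) (hk : 1 ≤ k) :
    ‖x * (((k : ℝ) ^ (-(1 / 2) : ℝ) : ℝ) : ℂ)‖ ^ 2 = ‖x‖ ^ 2 / k := by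
  have hk0 : (0 : ℝ) < k := by exact_mod_cast hk
  rw [norm_mul, mul_pow, Complex.norm_real, Real.norm_eq_abs, sq_abs, ← Real.rpow_natCast,
    ← Real.rpow_natCast, ← Real.rpow_mul hk0.le]
  rw [show (-(1 / 2) : ℝ) * ((2 : ℕ) : ℝ) = -1 by norm_num, Real.rpow_neg_one]
  rfl

/-- the difference of energies -/
lemma En_sub (f : ι → Fac) (y Y : ℝ) (hyY : y ≤ Y) :
    ∑ k ∈ (Finset.Icc 1 ⌊Y⌋₊).filter (fun k => ⌊y⌋₊ < k), ‖ac f k‖ ^ 2 / k = En f Y - En f y := by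
  have hle : ⌊y⌋₊ ≤ ⌊Y⌋₊ := Nat.floor_le_floor hyY
  have h1 : En f Y = En f y +
      ∑ k ∈ (Finset.Icc 1 ⌊Y⌋₊).filter (fun k => ⌊y⌋₊ < k), ‖ac f k‖ ^ 2 / k := by
    unfold En
    rw [← Finset.sum_filter_add_sum_filter_not (Finset.Icc 1 ⌊Y⌋₊) (fun k => k ≤ ⌊y⌋₊)]
    congr 1
    · refine Finset.sum_congr ?_ fun _ _ => rfl
      ext k
      simp only [Finset.mem_filter, Finset.mem_Icc]
      constructor
      · rintro ⟨⟨h2, _⟩, h4⟩
        exact ⟨h2, h4⟩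
      · rintro ⟨h2, h4⟩
        exact ⟨⟨h2, h4.trans hle⟩, h4⟩
    · refine Finset.sum_congr ?_ fun _ _ => rfl
      ext k
      simp only [Finset.mem_filter, Finset.mem_Icc, not_le]
  rw [h1]
  ring

/-- bounds for the centre -/
lemma cu_bounds (d B η T u : ℝ) (hd : 0 < d) (hT : 1 ≤ T)
    (hu : u ∈ Icc (5 * T / 4) (7 * T / 4)) :
    d * Real.log T - (d + |B| + |η| + d) ≤ cu d B η u ∧
      cu d B η u ≤ d * Real.log T + (d + |B| + |η| + d) := by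
  have hu1 : T ≤ u := by linarith [hu.1]
  have hu0 : 0 < u := by linarith
  have hT0 : 0 < T := by linarith
  have h1 : Real.log T ≤ Real.log u := Real.log_le_log hT0 hu1
  have h2 : Real.log u ≤ Real.log T + 1 := by
    have h3 : Real.log u ≤ Real.log (2 * T) := Real.log_le_log hu0 (by linarith [hu.2])
    rw [Real.log_mul (by norm_num) hT0.ne'] at h3
    have := Real.log_two_lt_d9
    linarith
  have h4 : |η / u| ≤ |η| := by
    rw [abs_div, abs_of_pos hu0]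
    exact div_le_self (abs_nonneg _) (by linarith)
  have h5 := abs_le.1 h4
  have h6 := abs_le.1 (le_refl |B|)
  unfold cu
  constructor
  · nlinarith [mul_le_mul_of_nonneg_left h1 hd.le, h5.1, h6.1]
  · nlinarith [mul_le_mul_of_nonneg_left h2 hd.le, h5.2, h6.2]

/-- the frequencies far from the window -/
lemma Jd_far (β d B η x₁ x₂ δ : ℝ) (hd : 0 < d) (hδ : 0 < δ) :
    ∀ᶠ T : ℝ in atTop, ∀ k : ℕ, 1 ≤ k →
      (k ≤ ⌊T ^ (d - x₂ - δ)⌋₊ ∨ ⌊T ^ (d - x₁ + δ)⌋₊ < k) →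
      ∀ ξ ∈ Icc (x₁ * Real.log T) (x₂ * Real.log T),
        Jd β d B η T (Real.log k + ξ) ≤
          T / 2 * Real.exp (-(β ^ 2 * δ ^ 2 / 8 * Real.log T ^ 2)) := by
  obtain ⟨C₀, hC₀⟩ : ∃ C₀ : ℝ, C₀ = d + |B| + |η| + d := ⟨_, rfl⟩
  filter_upwards [eventually_ge_atTop (1 : ℝ),
    Real.tendsto_log_atTop.eventually_ge_atTop (2 * C₀ / δ),
    Real.tendsto_log_atTop.eventually_ge_atTop 1] with T hT hL hL1
  intro k hk hfar ξ hξ
  have hT0 : 0 < T := by linarith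
  have hk0 : (0 : ℝ) < k := by exact_mod_cast hk
  rw [div_le_iff₀ hδ] at hL
  refine Jd_le β d B η T _ _ hT fun u hu => ?_
  obtain ⟨h1, h2⟩ := cu_bounds d B η T u hd hT hu
  rw [← hC₀] at h1 h2
  have h3 : δ * Real.log T / 2 ≤ |cu d B η u - (Real.log k + ξ)| := by
    rcases hfar with h | h
    · have h4 : (k : ℝ) ≤ T ^ (d - x₂ - δ) := (Nat.le_floor_iff (by positivity)).1 h
      have h5 : Real.log k ≤ (d - x₂ - δ) * Real.log T := by
        rw [← Real.log_rpow hT0]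
        exact Real.log_le_log hk0 h4
      refine le_trans ?_ (le_abs_self _)
      nlinarith [hξ.2]
    · have h4 : T ^ (d - x₁ + δ) < (k : ℝ) := Nat.lt_of_floor_lt h
      have h5 : (d - x₁ + δ) * Real.log T ≤ Real.log k := by
        rw [← Real.log_rpow hT0]
        exact Real.log_le_log (by positivity) h4.le
      rw [abs_sub_comm]
      refine le_trans ?_ (le_abs_self _)
      nlinarith [hξ.1]
  rw [Real.exp_le_exp]
  have h6 : (δ * Real.log T / 2) ^ 2 ≤ (cu d B η u - (Real.log k + ξ)) ^ 2 := by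
    rw [← sq_abs (cu d B η u - (Real.log k + ξ))]
    exact pow_le_pow_left₀ (by positivity) h3 2
  nlinarith [sq_nonneg β, mul_le_mul_of_nonneg_left h6 (sq_nonneg β)]

/-- (MSU) -/
theorem pf_MSU (h : T_GRP) : T_MSU := by
  intro ι _ f β D d B η x₁ x₂ δ hr hβ hd hx₁ hx₁₂ hx₂ hδ hD hD1
  have hD0 : 0 < D := by linarith
  obtain ⟨hA, _, _, hE⟩ := h ι f D hr hD0
  obtain ⟨C₂, hC₂, hEb⟩ := hE ((1 - D) / 16) (by linarith)
  obtain ⟨C₁, hC₁, hper⟩ := per_xi β d B η hβ hd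
  obtain ⟨K, hK⟩ : ∃ K : ℝ, K = 2 ^ Fintype.card ι := ⟨_, rfl⟩
  have hK1 : 1 ≤ K := by rw [hK]; exact one_le_pow₀ (by norm_num)
  obtain ⟨X, hX⟩ : ∃ X : ℝ, X = x₂ - x₁ := ⟨_, rfl⟩
  have hX0 : 0 < X := by rw [hX]; linarith
  have hb₀ : 0 < β ^ 2 * δ ^ 2 / 8 := by positivity
  obtain ⟨T₀, hT₀⟩ := eventually_atTop.1 (((numerics D K C₁ C₂ X (β ^ 2 * δ ^ 2 / 8) hD0 hD1 hK1
    hC₁ hC₂ hX0 hb₀).and (Jd_far β d B η x₁ x₂ δ hd hδ)).and (eventually_ge_atTop 1))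
  refine ⟨(1 - D) / 4, T₀, by linarith, fun T hT => ?_⟩
  obtain ⟨⟨hnum, hfar⟩, hT1⟩ := hT₀ T hT
  have hT0 : 0 < T := by linarith
  have hL0 : 0 ≤ Real.log T := Real.log_nonneg hT1
  have hTD : 1 ≤ T ^ D := Real.one_le_rpow hT1 hD0.le
  obtain ⟨N, hN⟩ : ∃ N : ℕ, N = ⌊(2 : ℝ) ^ Fintype.card ι * T ^ D⌋₊ := ⟨_, rfl⟩
  have hN1 : 1 ≤ N := by
    rw [hN]
    refine Nat.le_floor ?_
    rw [← hK]
    push_cast
    nlinarith
  have hNK : (N : ℝ) ≤ K * T ^ D := by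
    rw [hN, hK]
    exact Nat.floor_le (by positivity)
  obtain ⟨a, ha⟩ : ∃ a : ℕ → ℂ, a = fun (k : ℕ) =>
    at' f D T k * (((k : ℝ) ^ (-(1 / 2) : ℝ) : ℝ) : ℂ) := ⟨_, rfl⟩
  have hasq : ∀ k : ℕ, 1 ≤ k → ‖a k‖ ^ 2 = ‖at' f D T k‖ ^ 2 / k := by
    intro k hk
    rw [ha]
    exact norm_a_sq _ k hk
  obtain ⟨S, hS⟩ : ∃ S : ℝ, S = ∑ k ∈ Finset.Icc 1 N, ‖a k‖ ^ 2 := ⟨_, rfl⟩
  have hS0 : 0 ≤ S := by rw [hS]; exact Finset.sum_nonneg fun k _ => by positivity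
  have hSb : S ≤ C₂ ^ 2 * (N : ℝ) ^ ((1 - D) / 8) * (1 + Real.log N) := by
    calc S ≤ ∑ k ∈ Finset.Icc 1 N, C₂ ^ 2 * (N : ℝ) ^ ((1 - D) / 8) * (1 / (k : ℝ)) := by
          rw [hS]
          refine Finset.sum_le_sum fun k hk => ?_
          rw [Finset.mem_Icc] at hk
          have hk0 : (0 : ℝ) < k := by exact_mod_cast hk.1
          rw [hasq k hk.1, div_eq_mul_one_div]
          refine mul_le_mul_of_nonneg_right ?_ (by positivity)
          have h1 := (hEb k hk.1).2 T hT1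
          calc ‖at' f D T k‖ ^ 2 ≤ (C₂ * (k : ℝ) ^ ((1 - D) / 16)) ^ 2 := by gcongr
            _ = C₂ ^ 2 * (k : ℝ) ^ ((1 - D) / 8) := by
                rw [mul_pow, ← Real.rpow_natCast ((k : ℝ) ^ ((1 - D) / 16)),
                  ← Real.rpow_mul hk0.le]
                congr 2
                push_cast
                ring
            _ ≤ C₂ ^ 2 * (N : ℝ) ^ ((1 - D) / 8) := by
                refine mul_le_mul_of_nonneg_left ?_ (by positivity)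
                refine Real.rpow_le_rpow hk0.le (by exact_mod_cast hk.2) (by linarith)
      _ = C₂ ^ 2 * (N : ℝ) ^ ((1 - D) / 8) * ∑ k ∈ Finset.Icc 1 N, 1 / (k : ℝ) := by
          rw [Finset.mul_sum]
      _ ≤ C₂ ^ 2 * (N : ℝ) ^ ((1 - D) / 8) * (1 + Real.log N) :=
          mul_le_mul_of_nonneg_left (harm_le N) (by positivity)
  obtain ⟨ξ₁, hξ₁⟩ : ∃ ξ₁ : ℝ, ξ₁ = x₁ * Real.log T := ⟨_, rfl⟩
  obtain ⟨ξ₂, hξ₂⟩ : ∃ ξ₂ : ℝ, ξ₂ = x₂ * Real.log T := ⟨_, rfl⟩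
  have hξ : ξ₁ ≤ ξ₂ := by
    rw [hξ₁, hξ₂]
    exact mul_le_mul_of_nonneg_right hx₁₂.le hL0
  rw [← hξ₁, ← hξ₂] at hfar ⊢
  obtain ⟨W, hW⟩ : ∃ W : ℝ, W = 8 / 35 * T * (Real.sqrt (2 * Real.pi) / β) := ⟨_, rfl⟩
  have hW0 : 0 ≤ W := by rw [hW]; positivity
  obtain ⟨V, hV⟩ : ∃ V : ℝ, V = X * Real.log T *
    (T / 2 * Real.exp (-(β ^ 2 * δ ^ 2 / 8 * Real.log T ^ 2))) := ⟨_, rfl⟩
  have hV0 : 0 ≤ V := by rw [hV]; positivity
  obtain ⟨y, hy⟩ : ∃ y : ℝ, y = T ^ (d - x₂ - δ) := ⟨_, rfl⟩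
  obtain ⟨Y, hY⟩ : ∃ Y : ℝ, Y = T ^ (d - x₁ + δ) := ⟨_, rfl⟩
  rw [← hy, ← hY] at hfar ⊢
  have hY0 : 0 ≤ Y := by rw [hY]; positivity
  have hyY : y ≤ Y := by
    rw [hy, hY]
    exact Real.rpow_le_rpow_of_exponent_le hT1 (by linarith)
  have hYD : Y ≤ T ^ D := by
    rw [hY]
    exact Real.rpow_le_rpow_of_exponent_le hT1 hD.le
  have hYN : ⌊Y⌋₊ ≤ N := by
    rw [hN, ← hK]
    refine Nat.floor_le_floor (hYD.trans ?_)
    nlinarith
  -- integration in `ξ`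
  have hI : ∫ ξ in ξ₁..ξ₂, ∫ u in (5 * T / 4)..(7 * T / 4),
      om ((u - 5 * T / 4) / (T / 2)) * ‖BR f β D T d B η ξ u‖ ^ 2 ≤
      ∫ ξ in ξ₁..ξ₂, ((∑ k ∈ Finset.Icc 1 N, ‖a k‖ ^ 2 * Jd β d B η T (Real.log k + ξ)) +
      C₁ * N * Real.log (N + 1) * S) := by
    rw [intervalIntegral.integral_of_le hξ, intervalIntegral.integral_of_le hξ]
    refine integral_mono_of_nonneg ?_ ?_ ?_
    · refine Eventually.of_forall fun ξ => ?_
      refine intervalIntegral.integral_nonneg (by linarith) fun u hu => ?_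
      obtain ⟨h5, h6⟩ := unit_mem hT0 hu
      exact mul_nonneg (om_nonneg h5 h6) (by positivity)
    · have h7 : Continuous fun ξ : ℝ =>
          (∑ k ∈ Finset.Icc 1 N, ‖a k‖ ^ 2 * Jd β d B η T (Real.log k + ξ)) +
          C₁ * N * Real.log (N + 1) * S := by
        refine Continuous.add (continuous_finsetSum _ fun k _ => ?_) continuous_const
        exact continuous_const.mul (Jd_contOn β d B η T (Real.log k) hT1)
      exact (h7.integrableOn_Icc).mono_set Ioc_subset_Icc_self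
    · refine Eventually.of_forall fun ξ => ?_
      have h8 := hper T ξ N a hT1 hN1
      rw [← hS] at h8
      refine le_trans (le_of_eq ?_) h8
      refine intervalIntegral.integral_congr fun u _ => ?_
      rw [BR_eq h f β D T d B η ξ u hr hD0 hT1 N hN, ha]
  refine hI.trans ?_
  have hcontk : ∀ k : ℕ, IntervalIntegrable
      (fun ξ => ‖a k‖ ^ 2 * Jd β d B η T (Real.log k + ξ)) volume ξ₁ ξ₂ := fun k =>
    (continuous_const.mul (Jd_contOn β d B η T (Real.log k) hT1)).intervalIntegrable _ _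
  have hsum : ∫ ξ in ξ₁..ξ₂, ((∑ k ∈ Finset.Icc 1 N, ‖a k‖ ^ 2 * Jd β d B η T (Real.log k + ξ)) +
      C₁ * N * Real.log (N + 1) * S) =
      (∑ k ∈ Finset.Icc 1 N, ‖a k‖ ^ 2 * ∫ ξ in ξ₁..ξ₂, Jd β d B η T (Real.log k + ξ)) +
      X * Real.log T * (C₁ * N * Real.log (N + 1) * S) := by
    rw [intervalIntegral.integral_add ?_ (by simp)]
    · congr 1
      · rw [intervalIntegral.integral_finsetSum fun k _ => hcontk k]
        refine Finset.sum_congr rfl fun k _ => ?_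
        rw [intervalIntegral.integral_const_mul]
      · rw [intervalIntegral.integral_const, smul_eq_mul, hξ₁, hξ₂, hX]
        ring
    · apply Continuous.intervalIntegrable
      refine continuous_finsetSum _ fun k _ => ?_
      exact continuous_const.mul (Jd_contOn β d B η T (Real.log k) hT1)
  rw [hsum]
  -- bounds for each frequency
  have hgen : ∀ k : ℕ, ∫ ξ in ξ₁..ξ₂, Jd β d B η T (Real.log k + ξ) ≤ W := by
    intro k
    rw [hW]
    exact dbl_int β d B η T (Real.log k) ξ₁ ξ₂ hβ hT1 hξ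
  have hfarb : ∀ k : ℕ, 1 ≤ k → (k ≤ ⌊y⌋₊ ∨ ⌊Y⌋₊ < k) →
      ∫ ξ in ξ₁..ξ₂, Jd β d B η T (Real.log k + ξ) ≤ V := by
    intro k hk hk2
    calc ∫ ξ in ξ₁..ξ₂, Jd β d B η T (Real.log k + ξ) ≤
          ∫ ξ in ξ₁..ξ₂, T / 2 * Real.exp (-(β ^ 2 * δ ^ 2 / 8 * Real.log T ^ 2)) := by
          refine intervalIntegral.integral_mono_on hξ
            ((Jd_contOn β d B η T (Real.log k) hT1).intervalIntegrable _ _) (by simp)
            fun ξ hξm => hfar k hk hk2 ξ hξm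
      _ = V := by
          rw [intervalIntegral.integral_const, smul_eq_mul, hξ₁, hξ₂, hV, hX]
          ring
  have hterm : ∀ k ∈ Finset.Icc 1 N,
      ‖a k‖ ^ 2 * ∫ ξ in ξ₁..ξ₂, Jd β d B η T (Real.log k + ξ) ≤
      (if ⌊y⌋₊ < k ∧ k ≤ ⌊Y⌋₊ then ‖ac f k‖ ^ 2 / k * W else 0) + ‖a k‖ ^ 2 * V := by
    intro k hk
    rw [Finset.mem_Icc] at hk
    split_ifs with hm
    · have hkY : (k : ℝ) ≤ T ^ D := ((Nat.le_floor_iff hY0).1 hm.2).trans hYD
      rw [hasq k hk.1, hA T hT1 k hk.1 hkY]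
      have h9 : ‖ac f k‖ ^ 2 / k * ∫ ξ in ξ₁..ξ₂, Jd β d B η T (Real.log k + ξ) ≤
          ‖ac f k‖ ^ 2 / k * W := mul_le_mul_of_nonneg_left (hgen k) (by positivity)
      have h10 : 0 ≤ ‖ac f k‖ ^ 2 / k * V := by positivity
      linarith
    · rw [zero_add]
      refine mul_le_mul_of_nonneg_left (hfarb k hk.1 ?_) (by positivity)
      by_contra hcon
      push Not at hcon
      exact hm hcon
  have hmain : ∑ k ∈ Finset.Icc 1 N, ‖a k‖ ^ 2 * ∫ ξ in ξ₁..ξ₂, Jd β d B η T (Real.log k + ξ) ≤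
      W * (En f Y - En f y) + S * V := by
    refine (Finset.sum_le_sum hterm).trans (le_of_eq ?_)
    rw [Finset.sum_add_distrib, ← Finset.sum_mul, ← hS]
    congr 1
    rw [← Finset.sum_filter, ← Finset.sum_mul, mul_comm W, ← En_sub f y Y hyY]
    congr 1
    refine Finset.sum_congr ?_ fun _ _ => rfl
    ext k
    simp only [Finset.mem_filter, Finset.mem_Icc]
    constructor
    · rintro ⟨⟨h1, _⟩, h3, h4⟩
      exact ⟨⟨h1, h4⟩, h3⟩
    · rintro ⟨⟨h1, h4⟩, h3⟩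
      exact ⟨⟨h1, h4.trans hYN⟩, h3, h4⟩
  have hfin := hnum N S hN1 hNK hS0 hSb
  rw [← hV] at hfin
  rw [← hW]
  linarith

end Pool.Agent.H33.RT
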